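import Pool.Agent.Helper71.CP.Wild
import Pool.Agent.Helper71.PN.Aff
import Pool.Agent.Helper71.PN.Ext

/-!
# Covers of the weighted plane: product cases and the affine surfaces
-/

set_option autoImplicit false

namespace Pool.Agent.Helper71.CP

open Pool.Agent.Helper29.CQ Pool.Agent.Helper65.CC Pool.Agent.Helper87.CC
  Pool.Agent.Helper65.CC.KFn
open Pool.Agent.Helper71.PN
open Pool.Agent.Helper29.PF (StableClass)
open Pool.Agent.Helper49.QP (bc rep_bc rs)
open MvPolynomial (IsWeightedHomogeneous)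
open Polynomial (X C aeval)

variable {k : Type} [Field k]

/-- the action of the multiplicative group -/
noncomputable def LGs (E : MvPolynomial (Fin 3) k) (hE : IsWeightedHomogeneous wt E 3) :
    Sc (LG E) where
  sc {R} _ _ t x := ⟨(t * x.1.1, (t : R) ^ 2 * x.1.2.1, t * x.1.2.2), by
    have h1 : IsUnit (ev E x.1.1 x.1.2.1 x.1.2.2) := x.2
    change IsUnit (ev E (t * x.1.1) ((t : R) ^ 2 * x.1.2.1) (t * x.1.2.2))
    rw [ev_scale hE]
    exact (t.isUnit.pow 3).mul h1⟩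
  one {R} _ _ x := by
    refine Subtype.ext (Prod.ext ?_ (Prod.ext ?_ ?_))
    · exact one_mul _
    · change ((1 : Rˣ) : R) ^ 2 * x.1.2.1 = x.1.2.1
      rw [Units.val_one, one_pow, one_mul]
    · exact one_mul _
  mul {R} _ _ u v x := by
    refine Subtype.ext (Prod.ext ?_ (Prod.ext ?_ ?_))
    · exact mul_assoc _ _ _
    · change ((u * v : Rˣ) : R) ^ 2 * x.1.2.1 = (u : R) ^ 2 * ((v : R) ^ 2 * x.1.2.1)
      rw [Units.val_mul]
      ring
    · exact mul_assoc _ _ _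
  nat {R S} _ _ _ _ f u x := by
    refine Subtype.ext (Prod.ext ?_ (Prod.ext ?_ ?_))
    · exact map_mul f _ _
    · change f ((u : R) ^ 2 * x.1.2.1) = (f (u : R)) ^ 2 * f x.1.2.1
      rw [map_mul, map_pow]
    · exact map_mul f _ _

theorem aLG_inv (F E : MvPolynomial (Fin 3) k) (hF : IsWeightedHomogeneous wt F 6)
    (hE : IsWeightedHomogeneous wt E 3) {R : Type} [CommRing R] [Algebra k R] (t : Rˣ)
    (x : (LG E).obj R) : (aLG F E).val ((LGs E hE).sc t x) = (aLG F E).val x := by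
  have h1 : IsUnit (ev E x.1.1 x.1.2.1 x.1.2.2) := x.2
  have h2 := Ring.mul_inverse_cancel _ h1
  change ev F (t * x.1.1) ((t : R) ^ 2 * x.1.2.1) (t * x.1.2.2) *
    Ring.inverse (ev E (t * x.1.1) ((t : R) ^ 2 * x.1.2.1) (t * x.1.2.2)) ^ 2 =
    ev F x.1.1 x.1.2.1 x.1.2.2 * Ring.inverse (ev E x.1.1 x.1.2.1 x.1.2.2) ^ 2
  rw [ev_scale hE, ev_scale hF]
  have h3 : (t : R) * ((t⁻¹ : Rˣ) : R) = 1 := t.mul_inv
  have h4 : Ring.inverse ((t : R) ^ 3 * ev E x.1.1 x.1.2.1 x.1.2.2) =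
      ((t⁻¹ : Rˣ) : R) ^ 3 * Ring.inverse (ev E x.1.1 x.1.2.1 x.1.2.2) := by
    refine inv_unique ?_
    have h5 : ((t : R) * ((t⁻¹ : Rˣ) : R)) ^ 3 = 1 := by rw [h3, one_pow]
    set i := Ring.inverse (ev E x.1.1 x.1.2.1 x.1.2.2)
    set g := ev E x.1.1 x.1.2.1 x.1.2.2
    set s := ((t⁻¹ : Rˣ) : R)
    linear_combination (t * s) ^ 3 * h2 + h5
  rw [h4]
  have h5 : ((t : R) * ((t⁻¹ : Rˣ) : R)) ^ 6 = 1 := by rw [h3, one_pow]
  set i := Ring.inverse (ev E x.1.1 x.1.2.1 x.1.2.2)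
  set s := ((t⁻¹ : Rˣ) : R)
  linear_combination (ev F x.1.1 x.1.2.1 x.1.2.2 * i ^ 2) * h5

/-- coordinates -/
noncomputable def LGx (E : MvPolynomial (Fin 3) k) : Coord (LG E) := ⟨fun x => x.1.1, fun _ _ => rfl⟩

/-- coordinates -/
noncomputable def LGy (E : MvPolynomial (Fin 3) k) : Coord (LG E) :=
  ⟨fun x => x.1.2.1, fun _ _ => rfl⟩

/-- coordinates -/
noncomputable def LGz (E : MvPolynomial (Fin 3) k) : Coord (LG E) :=
  ⟨fun x => x.1.2.2, fun _ _ => rfl⟩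

/-- a one-dimensional slice -/
theorem d1_slice (E : MvPolynomial (Fin 3) k) (u v : Coord (LG E)) (s : Coord (LG E))
    (r : ∀ (R : Type) [CommRing R] [Algebra k R], R → R × R × R)
    (hr : ∀ {R S : Type} [CommRing R] [CommRing S] [Algebra k R] [Algebra k S] (f : R →ₐ[k] S)
      (t : R), r S (f t) = (f (r R t).1, f (r R t).2.1, f (r R t).2.2))
    (hs : ∀ {R : Type} [CommRing R] [Algebra k R] (x : (LG E).obj R), u.val x = 0 → v.val x = 0 →
      r R (s.val x) = x.1)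
    (hu : ∀ {R : Type} [CommRing R] [Algebra k R] (t : R) (h : IsUnit (ev E (r R t).1 (r R t).2.1
      (r R t).2.2)), u.val (⟨r R t, h⟩ : (LG E).obj R) = 0 ∧
        v.val (⟨r R t, h⟩ : (LG E).obj R) = 0 ∧ s.val (⟨r R t, h⟩ : (LG E).obj R) = t) :
    D1 (((LG E).cls u).cls (resC u v)) := by
  let w : Coord (A1 k) := ⟨fun {R} _ _ y => ev E (r R (show R from y)).1
      (r R (show R from y)).2.1 (r R (show R from y)).2.2, fun {R S} _ _ _ _ f x => by
    rw [ev_map]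
    have h1 := hr f (show R from x)
    change ev E _ _ _ = ev E (r S (f (show R from x))).1 (r S (f (show R from x))).2.1
      (r S (f (show R from x))).2.2
    rw [h1]⟩
  refine D1.of_iso ?_ (D1.line1.opn w)
  exact
    { hom := fun {R} _ _ x => ⟨(show R from s.val x.1.1), by
        have h1 : IsUnit (ev E x.1.1.1.1 x.1.1.1.2.1 x.1.1.1.2.2) := x.1.1.2
        have h2 := hs x.1.1 x.1.2 x.2
        change IsUnit (ev E (r R (s.val x.1.1)).1 (r R (s.val x.1.1)).2.1 (r R (s.val x.1.1)).2.2)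
        rw [h2]
        exact h1⟩
      inv := fun {R} _ _ y => ⟨⟨⟨r R (show R from y.1), y.2⟩, (hu (show R from y.1) y.2).1⟩,
        (hu (show R from y.1) y.2).2.1⟩
      inv_hom := fun {R} _ _ x => Subtype.ext (Subtype.ext (Subtype.ext (hs x.1.1 x.1.2 x.2)))
      hom_inv := fun {R} _ _ y => Subtype.ext (hu (show R from y.1) y.2).2.2
      nat := fun {R S} _ _ _ _ f x => Subtype.ext (s.nat f x.1.1) }

variable {p : ℕ} {P : ∀ (A : Type) [CommRing A], Prop}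

/-- covers of the base section `z = 0` -/
theorem mem_z [Finite k] (hP : FormalClass p P) (hk : (p : k) = 0) (F E : MvPolynomial (Fin 3) k)
    (hF : IsWeightedHomogeneous wt F 6) (hE : IsWeightedHomogeneous wt E 3) (φ : Polynomial k)
    (hφ : 0 < φ.natDegree) :
    (rootF ((LG E).cls (LGz E)) (resC _ (aLG F E)) φ).Mem (fun R _ _ => P R) := by
  refine root_cone1 hP hk ((LGs E hE).cls (LGz E) fun {R} _ _ t x h => ?_) _ φ hφ
    (fun t x => aLG_inv F E hF hE t x.1) (resC _ (LGx E)) (fun _ _ => rfl) ?_ ?_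
  · have h1 : x.1.2.2 = 0 := h
    change (t : R) * x.1.2.2 = 0
    rw [h1, mul_zero]
  · refine d1_slice E (LGz E) (subC (LGx E) 1) (LGy E) (fun R _ _ y => (1, y, 0)) ?_ ?_ ?_
    · intro R S _ _ _ _ f t
      simp only [map_one, map_zero]
    · intro R _ _ x h1 h2
      have h3 : x.1.2.2 = 0 := h1
      have h4 : x.1.1 - algebraMap k R 1 = 0 := h2
      rw [map_one, sub_eq_zero] at h4
      exact Prod.ext h4.symm (Prod.ext rfl h3.symm)
    · intro R _ _ t h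
      refine ⟨rfl, ?_, rfl⟩
      change (1 : R) - algebraMap k R 1 = 0
      rw [map_one, sub_self]
  · refine d1_slice E (LGz E) (LGx E) (LGy E) (fun R _ _ y => (0, y, 0)) ?_ ?_ ?_
    · intro R S _ _ _ _ f t
      simp only [map_zero]
    · intro R _ _ x h1 h2
      have h3 : x.1.2.2 = 0 := h1
      have h4 : x.1.1 = 0 := h2
      exact Prod.ext h4.symm (Prod.ext rfl h3.symm)
    · intro R _ _ t h
      exact ⟨rfl, rfl, rfl⟩

/-- covers of the base section `x = 0` -/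
theorem mem_x [Finite k] (hP : FormalClass p P) (hk : (p : k) = 0) (F E : MvPolynomial (Fin 3) k)
    (hF : IsWeightedHomogeneous wt F 6) (hE : IsWeightedHomogeneous wt E 3) (φ : Polynomial k)
    (hφ : 0 < φ.natDegree) :
    (rootF ((LG E).cls (LGx E)) (resC _ (aLG F E)) φ).Mem (fun R _ _ => P R) := by
  refine root_cone1 hP hk ((LGs E hE).cls (LGx E) fun {R} _ _ t x h => ?_) _ φ hφ
    (fun t x => aLG_inv F E hF hE t x.1) (resC _ (LGz E)) (fun _ _ => rfl) ?_ ?_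
  · have h1 : x.1.1 = 0 := h
    change (t : R) * x.1.1 = 0
    rw [h1, mul_zero]
  · refine d1_slice E (LGx E) (subC (LGz E) 1) (LGy E) (fun R _ _ y => (0, y, 1)) ?_ ?_ ?_
    · intro R S _ _ _ _ f t
      simp only [map_one, map_zero]
    · intro R _ _ x h1 h2
      have h3 : x.1.1 = 0 := h1
      have h4 : x.1.2.2 - algebraMap k R 1 = 0 := h2
      rw [map_one, sub_eq_zero] at h4
      exact Prod.ext h3.symm (Prod.ext rfl h4.symm)
    · intro R _ _ t h
      refine ⟨rfl, ?_, rfl⟩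
      change (1 : R) - algebraMap k R 1 = 0
      rw [map_one, sub_self]
  · refine d1_slice E (LGx E) (LGz E) (LGy E) (fun R _ _ y => (0, y, 0)) ?_ ?_ ?_
    · intro R S _ _ _ _ f t
      simp only [map_zero]
    · intro R _ _ x h1 h2
      have h3 : x.1.1 = 0 := h1
      have h4 : x.1.2.2 = 0 := h2
      exact Prod.ext h3.symm (Prod.ext rfl h4.symm)
    · intro R _ _ t h
      exact ⟨rfl, rfl, rfl⟩

/-- covers of the base section `y = 0` -/
theorem mem_y [Finite k] (hP : FormalClass p P) (hk : (p : k) = 0) (F E : MvPolynomial (Fin 3) k)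
    (hF : IsWeightedHomogeneous wt F 6) (hE : IsWeightedHomogeneous wt E 3) (φ : Polynomial k)
    (hφ : 0 < φ.natDegree) :
    (rootF ((LG E).cls (LGy E)) (resC _ (aLG F E)) φ).Mem (fun R _ _ => P R) := by
  refine root_cone1 hP hk ((LGs E hE).cls (LGy E) fun {R} _ _ t x h => ?_) _ φ hφ
    (fun t x => aLG_inv F E hF hE t x.1) (resC _ (LGz E)) (fun _ _ => rfl) ?_ ?_
  · have h1 : x.1.2.1 = 0 := h
    change (t : R) ^ 2 * x.1.2.1 = 0
    rw [h1, mul_zero]
  · refine d1_slice E (LGy E) (subC (LGz E) 1) (LGx E) (fun R _ _ y => (y, 0, 1)) ?_ ?_ ?_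
    · intro R S _ _ _ _ f t
      simp only [map_one, map_zero]
    · intro R _ _ x h1 h2
      have h3 : x.1.2.1 = 0 := h1
      have h4 : x.1.2.2 - algebraMap k R 1 = 0 := h2
      rw [map_one, sub_eq_zero] at h4
      exact Prod.ext rfl (Prod.ext h3.symm h4.symm)
    · intro R _ _ t h
      refine ⟨rfl, ?_, rfl⟩
      change (1 : R) - algebraMap k R 1 = 0
      rw [map_one, sub_self]
  · refine d1_slice E (LGy E) (LGz E) (LGx E) (fun R _ _ y => (y, 0, 0)) ?_ ?_ ?_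
    · intro R S _ _ _ _ f t
      simp only [map_zero]
    · intro R _ _ x h1 h2
      have h3 : x.1.2.1 = 0 := h1
      have h4 : x.1.2.2 = 0 := h2
      exact Prod.ext rfl (Prod.ext h3.symm h4.symm)
    · intro R _ _ t h
      exact ⟨rfl, rfl, rfl⟩

/-! ### The product cases -/

/-- the base is a product in the direction `x` -/
noncomputable def prodX (E : MvPolynomial (Fin 3) k) (h : NoX E) :
    Iso (LG E) ((LG E).cls (LGx E)).line where
  hom {R} _ _ x := (⟨⟨(0, x.1.2.1, x.1.2.2), by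
    have h1 : IsUnit (ev E x.1.1 x.1.2.1 x.1.2.2) := x.2
    rw [h.ev] at h1
    exact h1⟩, rfl⟩, x.1.1)
  inv {R} _ _ y := ⟨(y.2, y.1.1.1.2.1, y.1.1.1.2.2), by
    have h1 : IsUnit (ev E y.1.1.1.1 y.1.1.1.2.1 y.1.1.1.2.2) := y.1.1.2
    rw [h.ev] at h1
    change IsUnit (ev E y.2 y.1.1.1.2.1 y.1.1.1.2.2)
    rw [h.ev]
    exact h1⟩
  inv_hom _ := rfl
  hom_inv {R} _ _ y := by
    have h3 : y.1.1.1.1 = 0 := y.1.2
    exact Prod.ext (Subtype.ext (Subtype.ext (Prod.ext h3.symm (Prod.ext rfl rfl)))) rfl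
  nat {R S} _ _ _ _ f x := by
    refine Prod.ext (Subtype.ext (Subtype.ext (Prod.ext ?_ (Prod.ext rfl rfl)))) rfl
    exact map_zero f

/-- the base is a product in the direction `y` -/
noncomputable def prodY (E : MvPolynomial (Fin 3) k) (h : NoY E) :
    Iso (LG E) ((LG E).cls (LGy E)).line where
  hom {R} _ _ x := (⟨⟨(x.1.1, 0, x.1.2.2), by
    have h1 : IsUnit (ev E x.1.1 x.1.2.1 x.1.2.2) := x.2
    rw [h.ev] at h1
    exact h1⟩, rfl⟩, x.1.2.1)
  inv {R} _ _ y := ⟨(y.1.1.1.1, y.2, y.1.1.1.2.2), by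
    have h1 : IsUnit (ev E y.1.1.1.1 y.1.1.1.2.1 y.1.1.1.2.2) := y.1.1.2
    rw [h.ev] at h1
    change IsUnit (ev E y.1.1.1.1 y.2 y.1.1.1.2.2)
    rw [h.ev]
    exact h1⟩
  inv_hom _ := rfl
  hom_inv {R} _ _ y := by
    have h3 : y.1.1.1.2.1 = 0 := y.1.2
    exact Prod.ext (Subtype.ext (Subtype.ext (Prod.ext rfl (Prod.ext h3.symm rfl)))) rfl
  nat {R S} _ _ _ _ f x := by
    refine Prod.ext (Subtype.ext (Subtype.ext (Prod.ext rfl (Prod.ext ?_ rfl)))) rfl
    exact map_zero f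

theorem prod_x [Finite k] (hP : FormalClass p P) (hk : (p : k) = 0) (F E : MvPolynomial (Fin 3) k)
    (hF : IsWeightedHomogeneous wt F 6) (hE : IsWeightedHomogeneous wt E 3) (φ : Polynomial k)
    (hφ : 0 < φ.natDegree) (h : NoX F) (h' : NoX E) : (XC F E φ).Mem (fun R _ _ => P R) := by
  have hG := gops_k hP k hk
  refine Mem.of_iso (trans (rootIso (prodX E h') (aLG F E)
    (liC (resC (LGx E) (aLG F E))) φ ?_) (rootLine _ φ)) (Mem.line hG.toKOps
      (mem_x hP hk F E hF hE φ hφ))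
  intro R _ _ x
  change ev F 0 x.1.2.1 x.1.2.2 * Ring.inverse (ev E 0 x.1.2.1 x.1.2.2) ^ 2 =
    ev F x.1.1 x.1.2.1 x.1.2.2 * Ring.inverse (ev E x.1.1 x.1.2.1 x.1.2.2) ^ 2
  rw [← h.ev x.1.1, ← h'.ev x.1.1]

theorem prod_y [Finite k] (hP : FormalClass p P) (hk : (p : k) = 0) (F E : MvPolynomial (Fin 3) k)
    (hF : IsWeightedHomogeneous wt F 6) (hE : IsWeightedHomogeneous wt E 3) (φ : Polynomial k)
    (hφ : 0 < φ.natDegree) (h : NoY F) (h' : NoY E) : (XC F E φ).Mem (fun R _ _ => P R) := by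
  have hG := gops_k hP k hk
  refine Mem.of_iso (trans (rootIso (prodY E h') (aLG F E)
    (liC (resC (LGy E) (aLG F E))) φ ?_) (rootLine _ φ)) (Mem.line hG.toKOps
      (mem_y hP hk F E hF hE φ hφ))
  intro R _ _ x
  change ev F x.1.1 0 x.1.2.2 * Ring.inverse (ev E x.1.1 0 x.1.2.2) ^ 2 =
    ev F x.1.1 x.1.2.1 x.1.2.2 * Ring.inverse (ev E x.1.1 x.1.2.1 x.1.2.2) ^ 2
  rw [← h.ev x.1.1 x.1.2.1, ← h'.ev x.1.1 x.1.2.1]

/-- changes of coordinates of the base -/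
noncomputable def LGi (E : MvPolynomial (Fin 3) k) (τ : Chg k) :
    Iso (LG E) (LG (MvPolynomial.aeval τ.fwd E)) where
  hom {R} _ _ x := ⟨(ev (τ.bwd 0) x.1.1 x.1.2.1 x.1.2.2, ev (τ.bwd 1) x.1.1 x.1.2.1 x.1.2.2,
      ev (τ.bwd 2) x.1.1 x.1.2.1 x.1.2.2), by
    have h1 : IsUnit (ev E x.1.1 x.1.2.1 x.1.2.2) := x.2
    change IsUnit (ev (MvPolynomial.aeval τ.fwd E) _ _ _)
    rw [← ev_aeval, τ.fb]
    exact h1⟩
  inv {R} _ _ x := ⟨(ev (τ.fwd 0) x.1.1 x.1.2.1 x.1.2.2, ev (τ.fwd 1) x.1.1 x.1.2.1 x.1.2.2,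
      ev (τ.fwd 2) x.1.1 x.1.2.1 x.1.2.2), by
    have h1 : IsUnit (ev (MvPolynomial.aeval τ.fwd E) x.1.1 x.1.2.1 x.1.2.2) := x.2
    rw [ev_aeval] at h1
    exact h1⟩
  inv_hom {R} _ _ x := by
    apply Subtype.ext
    refine Prod.ext ?_ (Prod.ext ?_ ?_)
    · change ev (τ.fwd 0) (ev _ _ _ _) (ev _ _ _ _) (ev _ _ _ _) = _
      rw [← ev_aeval, τ.bwd_fwd, ev_X]
      rfl
    · change ev (τ.fwd 1) (ev _ _ _ _) (ev _ _ _ _) (ev _ _ _ _) = _
      rw [← ev_aeval, τ.bwd_fwd, ev_X]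
      rfl
    · change ev (τ.fwd 2) (ev _ _ _ _) (ev _ _ _ _) (ev _ _ _ _) = _
      rw [← ev_aeval, τ.bwd_fwd, ev_X]
      rfl
  hom_inv {R} _ _ x := by
    apply Subtype.ext
    refine Prod.ext ?_ (Prod.ext ?_ ?_)
    · change ev (τ.bwd 0) (ev _ _ _ _) (ev _ _ _ _) (ev _ _ _ _) = _
      rw [← ev_aeval, τ.fwd_bwd, ev_X]
      rfl
    · change ev (τ.bwd 1) (ev _ _ _ _) (ev _ _ _ _) (ev _ _ _ _) = _
      rw [← ev_aeval, τ.fwd_bwd, ev_X]
      rfl
    · change ev (τ.bwd 2) (ev _ _ _ _) (ev _ _ _ _) (ev _ _ _ _) = _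
      rw [← ev_aeval, τ.fwd_bwd, ev_X]
      rfl
  nat {R S} _ _ _ _ f x := by
    apply Subtype.ext
    refine Prod.ext ?_ (Prod.ext ?_ ?_) <;> exact ev_map _ _ _ _ _

theorem prod_chg [Finite k] (hP : FormalClass p P) (hk : (p : k) = 0)
    (F E : MvPolynomial (Fin 3) k) (hF : IsWeightedHomogeneous wt F 6)
    (hE : IsWeightedHomogeneous wt E 3) (φ : Polynomial k) (hφ : 0 < φ.natDegree) (τ : Chg k)
    (h : NoX (MvPolynomial.aeval τ.fwd F)) (h' : NoX (MvPolynomial.aeval τ.fwd E)) :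
    (XC F E φ).Mem (fun R _ _ => P R) := by
  refine Mem.of_iso (rootIso (LGi E τ) (aLG F E)
    (aLG (MvPolynomial.aeval τ.fwd F) (MvPolynomial.aeval τ.fwd E)) φ ?_)
    (prod_x hP hk _ _ (Pool.Agent.Helper49.CP.wh_aeval hF τ.hfwd)
      (Pool.Agent.Helper49.CP.wh_aeval hE τ.hfwd) φ hφ h h')
  intro R _ _ x
  change ev (MvPolynomial.aeval τ.fwd F) (ev _ _ _ _) (ev _ _ _ _) (ev _ _ _ _) *
    Ring.inverse (ev (MvPolynomial.aeval τ.fwd E) (ev _ _ _ _) (ev _ _ _ _) (ev _ _ _ _)) ^ 2 =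
    ev F x.1.1 x.1.2.1 x.1.2.2 * Ring.inverse (ev E x.1.1 x.1.2.1 x.1.2.2) ^ 2
  rw [← ev_aeval, ← ev_aeval, τ.fb, τ.fb]

/-! ### Base change -/

/-- the base change of the cover -/
noncomputable def bcXC (k' : Type) [Field k'] [Algebra k k'] (F E : MvPolynomial (Fin 3) k)
    (φ : Polynomial k) :
    Iso (bc k' (XC F E φ)) (XC (MvPolynomial.map (algebraMap k k') F)
      (MvPolynomial.map (algebraMap k k') E) (φ.map (algebraMap k k'))) where
  hom {R} _ _ x := ⟨(⟨x.1.1.1, by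
      have h1 : IsUnit (@ev k _ E R _ (rs k k' R) x.1.1.1.1 x.1.1.1.2.1 x.1.1.1.2.2) := x.1.1.2
      rw [← Pool.Agent.Helper49.CP.ev_rs E] at h1
      exact h1⟩, x.1.2), by
      have h2 : @aeval k R _ _ (rs k k' R) x.1.2 φ - @ev k _ F R _ (rs k k' R) x.1.1.1.1
        x.1.1.1.2.1 x.1.1.1.2.2 * Ring.inverse (@ev k _ E R _ (rs k k' R) x.1.1.1.1
        x.1.1.1.2.1 x.1.1.1.2.2) ^ 2 = 0 := x.2
      rw [← Pool.Agent.Helper49.CP.ev_rs E, ← Pool.Agent.Helper49.CP.ev_rs F] at h2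
      have h3 : aeval x.1.2 (φ.map (algebraMap k k')) = @aeval k R _ _ (rs k k' R) x.1.2 φ := by
        let _ := rs k k' R
        have _ : IsScalarTower k k' R := IsScalarTower.of_algebraMap_eq fun _ => rfl
        exact Polynomial.aeval_map_algebraMap k' x.1.2 φ
      change aeval x.1.2 (φ.map (algebraMap k k')) - ev (MvPolynomial.map (algebraMap k k') F)
        x.1.1.1.1 x.1.1.1.2.1 x.1.1.1.2.2 * Ring.inverse (ev (MvPolynomial.map (algebraMap k k') E)
        x.1.1.1.1 x.1.1.1.2.1 x.1.1.1.2.2) ^ 2 = 0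
      rw [h3]
      exact h2⟩
  inv {R} _ _ x := ⟨(⟨x.1.1.1, by
      have h1 : IsUnit (ev (MvPolynomial.map (algebraMap k k') E) x.1.1.1.1 x.1.1.1.2.1
        x.1.1.1.2.2) := x.1.1.2
      rw [Pool.Agent.Helper49.CP.ev_rs E] at h1
      exact h1⟩, x.1.2), by
      have h2 : aeval x.1.2 (φ.map (algebraMap k k')) - ev (MvPolynomial.map (algebraMap k k') F)
        x.1.1.1.1 x.1.1.1.2.1 x.1.1.1.2.2 * Ring.inverse (ev (MvPolynomial.map (algebraMap k k') E)
        x.1.1.1.1 x.1.1.1.2.1 x.1.1.1.2.2) ^ 2 = 0 := x.2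
      have h3 : aeval x.1.2 (φ.map (algebraMap k k')) = @aeval k R _ _ (rs k k' R) x.1.2 φ := by
        let _ := rs k k' R
        have _ : IsScalarTower k k' R := IsScalarTower.of_algebraMap_eq fun _ => rfl
        exact Polynomial.aeval_map_algebraMap k' x.1.2 φ
      rw [h3, Pool.Agent.Helper49.CP.ev_rs E, Pool.Agent.Helper49.CP.ev_rs F] at h2
      exact h2⟩
  inv_hom _ := rfl
  hom_inv _ := rfl
  nat _ _ := rfl

theorem prod_ext [Finite k] (hP : FormalClass p P) (hk : (p : k) = 0)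
    (F E : MvPolynomial (Fin 3) k) (hF : IsWeightedHomogeneous wt F 6)
    (hE : IsWeightedHomogeneous wt E 3) (φ : Polynomial k) (hφ : 0 < φ.natDegree) (k' : Type)
    [Field k'] [Algebra k k'] (hfin : Module.Finite k k') (τ : Chg k')
    (h : NoX (MvPolynomial.aeval τ.fwd (MvPolynomial.map (algebraMap k k') F)))
    (h' : NoX (MvPolynomial.aeval τ.fwd (MvPolynomial.map (algebraMap k k') E))) :
    (XC F E φ).Mem (fun R _ _ => P R) := by
  have hf : Finite k' := Module.finite_of_finite k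
  refine mem_ext hP (k' := k') (Mem.of_iso (bcXC k' F E φ) ?_)
  refine prod_chg hP ?_ _ _ (Pool.Agent.Helper79.CP.hom_map hF)
    (Pool.Agent.Helper79.CP.hom_map hE) _ ?_ τ h h'
  · rw [← map_natCast (algebraMap k k'), hk, map_zero]
  · rw [Polynomial.natDegree_map_eq_of_injective (algebraMap k k').injective]
    exact hφ

/-! ### The affine plane -/

/-- the slice -/
noncomputable def slice (g : MvPolynomial (Fin 2) k) (E : MvPolynomial (Fin 3) k)
    (h : ∀ (R : Type) [CommRing R] [Algebra k R] (x y : R), ev2 g x y = ev E x y 1) :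
    Iso ((A2 k).opn (cd2 g)) ((LG E).cls (subC (LGz E) 1)) where
  hom {R} _ _ x := ⟨⟨(x.1.1, x.1.2, 1), by
    have h1 : IsUnit (ev2 g x.1.1 x.1.2) := x.2
    rw [h] at h1
    exact h1⟩, by
    change (1 : R) - algebraMap k R 1 = 0
    rw [map_one, sub_self]⟩
  inv {R} _ _ y := ⟨(y.1.1.1, y.1.1.2.1), by
    have h1 : IsUnit (ev E y.1.1.1 y.1.1.2.1 y.1.1.2.2) := y.1.2
    have h2 : y.1.1.2.2 - algebraMap k R 1 = 0 := y.2
    rw [map_one, sub_eq_zero] at h2
    rw [h2, ← h] at h1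
    exact h1⟩
  inv_hom _ := rfl
  hom_inv {R} _ _ y := by
    have h2 : y.1.1.2.2 - algebraMap k R 1 = 0 := y.2
    rw [map_one, sub_eq_zero] at h2
    exact Subtype.ext (Subtype.ext (Prod.ext rfl (Prod.ext rfl h2.symm)))
  nat {R S} _ _ _ _ f x := by
    refine Subtype.ext (Subtype.ext (Prod.ext rfl (Prod.ext rfl ?_)))
    exact map_one f

theorem aff_mem [Finite k] (hP : StableClass p P) (hk : (p : k) = 0) (h2 : (2 : k) ≠ 0)
    (f g : MvPolynomial (Fin 2) k) (F E : MvPolynomial (Fin 3) k)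
    (hF : IsWeightedHomogeneous wt F 6) (hE : IsWeightedHomogeneous wt E 3)
    (hf : ∀ (R : Type) [CommRing R] [Algebra k R] (x y : R), ev2 f x y = ev F x y 1)
    (hg : ∀ (R : Type) [CommRing R] [Algebra k R] (x y : R), ev2 g x y = ev E x y 1)
    (φ : Polynomial k) (hφ : 0 < φ.natDegree) (hm : (XC F E φ).Mem (fun R _ _ => P R)) :
    (AF f g φ).Mem (fun R _ _ => P R) := by
  refine cone_aff hP hk h2 (LGs E hE) (aLG F E) φ (fun t x => aLG_inv F E hF hE t x) (LGz E)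
    (fun _ _ => rfl) hm (mem_z hP.toFormalClass hk F E hF hE φ hφ) f g (slice g E hg) ?_
  intro R _ _ x
  change ev F x.1.1 x.1.2 1 * Ring.inverse (ev E x.1.1 x.1.2 1) ^ 2 =
    ev2 f x.1.1 x.1.2 * Ring.inverse (ev2 g x.1.1 x.1.2) ^ 2
  rw [hf, hg]

end Pool.Agent.Helper71.CP
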