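import Pool.Agent.Helper9.QP.Defs
import Pool.Agent.Helper71.PN.Calc

/-!
# Pencils of curves of degree six in the weighted plane with the weights 1, 2, 1: definitions
-/

set_option autoImplicit false

namespace Pool.Agent.Helper71.CP

open Pool.Agent.Helper29.CQ Pool.Agent.Helper65.CC Pool.Agent.Helper87.CC
  Pool.Agent.Helper65.CC.KFn
open Pool.Agent.Helper9.QP (A4 Cst)
open MvPolynomial (X C aeval IsWeightedHomogeneous)

variable {K : Type} [Field K] {G : ∀ (R : Type) [CommRing R] [Algebra K R], Prop}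

/-- the weights of the variables `x`, `y`, `z` -/
abbrev wt : Fin 3 → ℕ := ![1, 2, 1]

/-- the value of a polynomial in three variables -/
noncomputable def ev (F : MvPolynomial (Fin 3) K) {R : Type} [CommRing R] [Algebra K R]
    (x y z : R) : R := aeval ![x, y, z] F

theorem ev_map (F : MvPolynomial (Fin 3) K) {R S : Type} [CommRing R] [Algebra K R] [CommRing S]
    [Algebra K S] (f : R →ₐ[K] S) (x y z : R) : f (ev F x y z) = ev F (f x) (f y) (f z) := by
  have h1 : f.comp (aeval ![x, y, z]) = aeval ![f x, f y, f z] := by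
    apply MvPolynomial.algHom_ext
    intro i
    rw [AlgHom.comp_apply, MvPolynomial.aeval_X, MvPolynomial.aeval_X]
    fin_cases i <;> rfl
  exact DFunLike.congr_fun h1 F

theorem ev_add (F F' : MvPolynomial (Fin 3) K) {R : Type} [CommRing R] [Algebra K R]
    (x y z : R) : ev (F + F') x y z = ev F x y z + ev F' x y z := map_add _ _ _

theorem ev_mul (F F' : MvPolynomial (Fin 3) K) {R : Type} [CommRing R] [Algebra K R]
    (x y z : R) : ev (F * F') x y z = ev F x y z * ev F' x y z := map_mul _ _ _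

theorem ev_pow (F : MvPolynomial (Fin 3) K) (n : ℕ) {R : Type} [CommRing R] [Algebra K R]
    (x y z : R) : ev (F ^ n) x y z = ev F x y z ^ n := map_pow _ _ _

theorem ev_C (a : K) {R : Type} [CommRing R] [Algebra K R]
    (x y z : R) : ev (C a) x y z = algebraMap K R a := MvPolynomial.aeval_C _ _

/-- weighted homogeneous polynomials: the action of the multiplicative group -/
theorem ev_scale {F : MvPolynomial (Fin 3) K} {d : ℕ} (hF : IsWeightedHomogeneous wt F d)
    {R : Type} [CommRing R] [Algebra K R] (u x y z : R) :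
    ev F (u * x) (u ^ 2 * y) (u * z) = u ^ d * ev F x y z := by
  unfold ev
  rw [MvPolynomial.aeval_def, MvPolynomial.aeval_def, MvPolynomial.eval₂_eq', MvPolynomial.eval₂_eq',
    Finset.mul_sum]
  refine Finset.sum_congr rfl fun m hm => ?_
  have h1 := hF (MvPolynomial.mem_support_iff.1 hm)
  rw [Finsupp.weight_apply, Finsupp.sum_fintype _ _ (fun i => by simp)] at h1
  simp only [Fin.sum_univ_three, Matrix.cons_val_zero, Matrix.cons_val_one, Matrix.cons_val,
    smul_eq_mul, mul_one] at h1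
  rw [← h1]
  simp only [Fin.prod_univ_three, Matrix.cons_val_zero, Matrix.cons_val_one, Matrix.cons_val]
  ring

/-- the cone `u ^ 2 = F(x, y, z)` -/
noncomputable def CW (F : MvPolynomial (Fin 3) K) : KFn K :=
  (A4 K).cls ⟨fun x => x.2.2.2 ^ 2 - ev F x.1 x.2.1 x.2.2.1, fun f x => by
    rw [map_sub, map_pow, ev_map]
    rfl⟩

instance (F : MvPolynomial (Fin 3) K) : Rp (CW F) := by
  unfold CW
  infer_instance

/-- the value of a polynomial on the cone -/
noncomputable def CW.c (F E : MvPolynomial (Fin 3) K) : Coord (CW F) where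
  val x := ev E x.1.1 x.1.2.1 x.1.2.2.1
  nat f x := by
    rw [ev_map]
    rfl

/-- automorphisms of the graded ring `K[x, y, z]` -/
structure Chg (K : Type) [Field K] where
  /-- the automorphism -/
  fwd : Fin 3 → MvPolynomial (Fin 3) K
  /-- the inverse automorphism -/
  bwd : Fin 3 → MvPolynomial (Fin 3) K
  hfwd : ∀ i, IsWeightedHomogeneous wt (fwd i) (wt i)
  hbwd : ∀ i, IsWeightedHomogeneous wt (bwd i) (wt i)
  fwd_bwd : ∀ i, aeval fwd (bwd i) = X i
  bwd_fwd : ∀ i, aeval bwd (fwd i) = X i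

/-- the polynomial does not depend on `x` -/
def NoX (F : MvPolynomial (Fin 3) K) : Prop :=
  aeval (![0, X 1, X 2] : Fin 3 → MvPolynomial (Fin 3) K) F = F

/-- the polynomial does not depend on `y` -/
def NoY (F : MvPolynomial (Fin 3) K) : Prop :=
  aeval (![X 0, 0, X 2] : Fin 3 → MvPolynomial (Fin 3) K) F = F

theorem ev_aeval (F : MvPolynomial (Fin 3) K) (t : Fin 3 → MvPolynomial (Fin 3) K)
    {R : Type} [CommRing R] [Algebra K R] (x y z : R) :
    ev (aeval t F) x y z = ev F (ev (t 0) x y z) (ev (t 1) x y z) (ev (t 2) x y z) := by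
  have h1 : (aeval ![x, y, z] : MvPolynomial (Fin 3) K →ₐ[K] R).comp (aeval t) =
      aeval ![ev (t 0) x y z, ev (t 1) x y z, ev (t 2) x y z] := by
    apply MvPolynomial.algHom_ext
    intro i
    rw [AlgHom.comp_apply, MvPolynomial.aeval_X, MvPolynomial.aeval_X]
    fin_cases i <;> rfl
  exact DFunLike.congr_fun h1 F

theorem ev_X (i : Fin 3) {R : Type} [CommRing R] [Algebra K R] (x y z : R) :
    ev (X i : MvPolynomial (Fin 3) K) x y z = ![x, y, z] i := MvPolynomial.aeval_X _ _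

theorem NoX.ev {F : MvPolynomial (Fin 3) K} (h : NoX F) {R : Type} [CommRing R] [Algebra K R]
    (x y z : R) : ev F x y z = ev F 0 y z := by
  conv_lhs => rw [← h]
  rw [ev_aeval]
  have h1 : CP.ev (![0, X 1, X 2] 0 : MvPolynomial (Fin 3) K) x y z = 0 := map_zero _
  have h2 : CP.ev (![0, X 1, X 2] 1 : MvPolynomial (Fin 3) K) x y z = y := ev_X 1 x y z
  have h3 : CP.ev (![0, X 1, X 2] 2 : MvPolynomial (Fin 3) K) x y z = z := ev_X 2 x y z
  rw [h1, h2, h3]

theorem NoY.ev {F : MvPolynomial (Fin 3) K} (h : NoY F) {R : Type} [CommRing R] [Algebra K R]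
    (x y z : R) : ev F x y z = ev F x 0 z := by
  conv_lhs => rw [← h]
  rw [ev_aeval]
  have h1 : CP.ev (![X 0, 0, X 2] 0 : MvPolynomial (Fin 3) K) x y z = x := ev_X 0 x y z
  have h2 : CP.ev (![X 0, 0, X 2] 1 : MvPolynomial (Fin 3) K) x y z = 0 := map_zero _
  have h3 : CP.ev (![X 0, 0, X 2] 2 : MvPolynomial (Fin 3) K) x y z = z := ev_X 2 x y z
  rw [h1, h2, h3]

/-- the coefficient of `y ^ 3` -/
noncomputable def al (F : MvPolynomial (Fin 3) K) : K := F.coeff (Finsupp.single 1 3)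

/-- the members of the pencil -/
noncomputable def Qp (F E : MvPolynomial (Fin 3) K) (a b : K) : MvPolynomial (Fin 3) K :=
  C a * E ^ 2 + C b * F

theorem ev_Qp (F E : MvPolynomial (Fin 3) K) (a b : K) {R : Type} [CommRing R] [Algebra K R]
    (x y z : R) : ev (Qp F E a b) x y z =
      algebraMap K R a * ev E x y z ^ 2 + algebraMap K R b * ev F x y z := by
  rw [Qp, ev_add, ev_mul, ev_mul, ev_pow, ev_C, ev_C]

theorem Qp_hom {F E : MvPolynomial (Fin 3) K} (hF : IsWeightedHomogeneous wt F 6)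
    (hE : IsWeightedHomogeneous wt E 3) (a b : K) : IsWeightedHomogeneous wt (Qp F E a b) 6 := by
  refine IsWeightedHomogeneous.add ?_ (hF.C_mul b)
  have h1 := (hE.pow 2).C_mul a
  simpa using h1

theorem Chg.fb (τ : Chg K) (F : MvPolynomial (Fin 3) K) : aeval τ.bwd (aeval τ.fwd F) = F := by
  have h1 : (aeval τ.bwd : MvPolynomial (Fin 3) K →ₐ[K] MvPolynomial (Fin 3) K).comp
      (aeval τ.fwd) = AlgHom.id K _ := by
    apply MvPolynomial.algHom_ext
    intro i
    rw [AlgHom.comp_apply, MvPolynomial.aeval_X, τ.bwd_fwd]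
    rfl
  exact DFunLike.congr_fun h1 F

theorem Chg.bf (τ : Chg K) (F : MvPolynomial (Fin 3) K) : aeval τ.fwd (aeval τ.bwd F) = F := by
  have h1 : (aeval τ.fwd : MvPolynomial (Fin 3) K →ₐ[K] MvPolynomial (Fin 3) K).comp
      (aeval τ.bwd) = AlgHom.id K _ := by
    apply MvPolynomial.algHom_ext
    intro i
    rw [AlgHom.comp_apply, MvPolynomial.aeval_X, τ.fwd_bwd]
    rfl
  exact DFunLike.congr_fun h1 F

/-- a change of coordinates -/
noncomputable def CWi (F : MvPolynomial (Fin 3) K) (τ : Chg K) :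
    Iso (CW F) (CW (aeval τ.fwd F)) where
  hom {R} _ _ x := ⟨(ev (τ.bwd 0) x.1.1 x.1.2.1 x.1.2.2.1, ev (τ.bwd 1) x.1.1 x.1.2.1 x.1.2.2.1,
      ev (τ.bwd 2) x.1.1 x.1.2.1 x.1.2.2.1, x.1.2.2.2), by
    have h1 : x.1.2.2.2 ^ 2 - ev F x.1.1 x.1.2.1 x.1.2.2.1 = 0 := x.2
    change x.1.2.2.2 ^ 2 - ev (aeval τ.fwd F) _ _ _ = 0
    rw [← ev_aeval, τ.fb]
    exact h1⟩
  inv {R} _ _ x := ⟨(ev (τ.fwd 0) x.1.1 x.1.2.1 x.1.2.2.1, ev (τ.fwd 1) x.1.1 x.1.2.1 x.1.2.2.1,
      ev (τ.fwd 2) x.1.1 x.1.2.1 x.1.2.2.1, x.1.2.2.2), by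
    have h1 : x.1.2.2.2 ^ 2 - ev (aeval τ.fwd F) x.1.1 x.1.2.1 x.1.2.2.1 = 0 := x.2
    rw [ev_aeval] at h1
    exact h1⟩
  inv_hom {R} _ _ x := by
    apply Subtype.ext
    refine Prod.ext ?_ (Prod.ext ?_ (Prod.ext ?_ rfl))
    · change ev (τ.fwd 0) (ev _ _ _ _) (ev _ _ _ _) (ev _ _ _ _) = _
      rw [← ev_aeval, τ.bwd_fwd, ev_X]
      rfl
    · change ev (τ.fwd 1) (ev _ _ _ _) (ev _ _ _ _) (ev _ _ _ _) = _
      rw [← ev_aeval, τ.bwd_fwd, ev_X]
      rfl
    · change ev (τ.fwd 2) (ev _ _ _ _) (ev _ _ _ _) (ev _ _ _ _) = _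
      rw [← ev_aeval, τ.bwd_fwd, ev_X]
      rfl
  hom_inv {R} _ _ x := by
    apply Subtype.ext
    refine Prod.ext ?_ (Prod.ext ?_ (Prod.ext ?_ rfl))
    · change ev (τ.bwd 0) (ev _ _ _ _) (ev _ _ _ _) (ev _ _ _ _) = _
      rw [← ev_aeval, τ.fwd_bwd, ev_X]
      rfl
    · change ev (τ.bwd 1) (ev _ _ _ _) (ev _ _ _ _) (ev _ _ _ _) = _
      rw [← ev_aeval, τ.fwd_bwd, ev_X]
      rfl
    · change ev (τ.bwd 2) (ev _ _ _ _) (ev _ _ _ _) (ev _ _ _ _) = _
      rw [← ev_aeval, τ.fwd_bwd, ev_X]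
      rfl
  nat {R S} _ _ _ _ f x := by
    apply Subtype.ext
    refine Prod.ext ?_ (Prod.ext ?_ (Prod.ext ?_ rfl)) <;> exact ev_map _ _ _ _ _

theorem CWi_c (F E : MvPolynomial (Fin 3) K) (τ : Chg K) {R : Type} [CommRing R] [Algebra K R]
    (x : (CW F).obj R) :
    (CW.c (aeval τ.fwd F) (aeval τ.fwd E)).val ((CWi F τ).hom x) = (CW.c F E).val x := by
  change ev (aeval τ.fwd E) (ev _ _ _ _) (ev _ _ _ _) (ev _ _ _ _) = ev E x.1.1 x.1.2.1 x.1.2.2.1
  rw [← ev_aeval, τ.fb]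

/-! Statements to be proved (blocks).

(1) `cone6_mem`
theorem cone6_mem [IsAlgClosed K] (h2 : (2 : K) ≠ 0) (hG : GOps K G) (F : MvPolynomial (Fin 3) K)
    (hF : IsWeightedHomogeneous wt F 6)
    (h : (al F ≠ 0 ∧ ∀ τ : Chg K, ¬ NoX (aeval τ.fwd F)) ∨ (al F = 0 ∧ ¬ NoY F)) : (CW F).Mem G

(2) `cone6_trx`, `cone6_try`
theorem cone6_trx [IsAlgClosed K] (h2 : (2 : K) ≠ 0) (hG : GOps K G)
    (F E : MvPolynomial (Fin 3) K) (hF : IsWeightedHomogeneous wt F 6)
    (hE : IsWeightedHomogeneous wt E 3) (hFx : NoX F) (hEx : ¬ NoX E)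
    (hD : ((CW F).cls (CW.c F E)).Mem G) : (CW F).Mem G
theorem cone6_try [IsAlgClosed K] (h2 : (2 : K) ≠ 0) (hG : GOps K G)
    (F E : MvPolynomial (Fin 3) K) (hF : IsWeightedHomogeneous wt F 6)
    (hE : IsWeightedHomogeneous wt E 3) (hFy : NoY F) (hEy : ¬ NoY E)
    (hD : ((CW F).cls (CW.c F E)).Mem G) : (CW F).Mem G

(3) `conic6`: the double cover of the curve `E = 0` is constant
theorem conic6 [IsAlgClosed K] (hG : GOps K G) {k : Type} [Field k] [Finite k]
    [Algebra k K] (hW : Cst k G) (F E : MvPolynomial (Fin 3) k)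
    (hF : IsWeightedHomogeneous wt F 6) (hE : IsWeightedHomogeneous wt E 3) (hE0 : E ≠ 0)
    (a b : K) (hb : b ≠ 0) :
    ((CW (Qp (MvPolynomial.map (algebraMap k K) F) (MvPolynomial.map (algebraMap k K) E) a b)).cls
      (CW.c _ (MvPolynomial.map (algebraMap k K) E))).Mem G

(4) `desc6`: common normal forms are defined over a finite extension
theorem desc6 {k K : Type} [Field k] [Field K] [Algebra k K] (F E : MvPolynomial (Fin 3) k)
    (τ : Chg K) (h : NoX (aeval τ.fwd (MvPolynomial.map (algebraMap k K) F)))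
    (h' : NoX (aeval τ.fwd (MvPolynomial.map (algebraMap k K) E))) :
    ∃ (k' : Type) (_ : Field k') (_ : Algebra k k') (_ : Module.Finite k k') (τ' : Chg k'),
      NoX (aeval τ'.fwd (MvPolynomial.map (algebraMap k k') F)) ∧
      NoX (aeval τ'.fwd (MvPolynomial.map (algebraMap k k') E))

(5) `geo6`, from (1) - (4)
theorem geo6 [IsAlgClosed K] (h2 : (2 : K) ≠ 0) (hG : GOps K G) {k : Type} [Field k] [Finite k]
    [Algebra k K] (hW : Cst k G) (F E : MvPolynomial (Fin 3) k)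
    (hF : IsWeightedHomogeneous wt F 6) (hE : IsWeightedHomogeneous wt E 3) (hE0 : E ≠ 0)
    (hx : ∀ (k' : Type) [Field k'] [Algebra k k'], Module.Finite k k' → ∀ τ : Chg k',
      ¬ (NoX (aeval τ.fwd (MvPolynomial.map (algebraMap k k') F)) ∧
        NoX (aeval τ.fwd (MvPolynomial.map (algebraMap k k') E))))
    (hy : ¬ (NoY F ∧ NoY E)) (a b : K) (hb : b ≠ 0) :
    (CW (Qp (MvPolynomial.map (algebraMap k K) F) (MvPolynomial.map (algebraMap k K) E) a b)).Mem G
-/

end Pool.Agent.Helper71.CP
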