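import Pool.Agent.Helper71.PN.Isog
import Pool.Agent.Helper71.QP.Wild
import Pool.Agent.Helper49.CP.Mem
import Pool.Agent.Helper49.CP.Conic
import Pool.Agent.Helper79.CP.Geo

/-!
# Additive covers of the weighted plane: the fibration
-/

set_option autoImplicit false

namespace Pool.Agent.Helper71.CP

open Pool.Agent.Helper29.CQ Pool.Agent.Helper65.CC Pool.Agent.Helper87.CC
  Pool.Agent.Helper65.CC.KFn
open Pool.Agent.Helper9.QP (A4 Cst)
open Pool.Agent.Helper71.PN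
open Pool.Agent.Helper71.QP (wild_rel aeval_rs)
open MvPolynomial (IsWeightedHomogeneous)
open Polynomial (X C aeval)

/-- the complement of the cone over the curve `E = 0` -/
noncomputable def LG {K : Type} [Field K] (E : MvPolynomial (Fin 3) K) : KFn K :=
  (A3 K).opn ⟨fun x => ev E x.1 x.2.1 x.2.2, fun f x => by
    rw [ev_map]
    rfl⟩

instance {K : Type} [Field K] (E : MvPolynomial (Fin 3) K) : Rp (LG E) := by
  unfold LG
  infer_instance

/-- the function `F / E ^ 2` -/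
noncomputable def aLG {K : Type} [Field K] (F E : MvPolynomial (Fin 3) K) : Coord (LG E) where
  val x := ev F x.1.1 x.1.2.1 x.1.2.2 * Ring.inverse (ev E x.1.1 x.1.2.1 x.1.2.2) ^ 2
  nat f x := by
    have h1 : IsUnit (ev E x.1.1 x.1.2.1 x.1.2.2) := x.2
    rw [map_mul, map_pow, inv_nat f h1, ev_map, ev_map]
    rfl

/-- the cone over the affine cover `E(x, y, z) ^ 2 φ(w) = F(x, y, z)` -/
noncomputable def XC {K : Type} [Field K] (F E : MvPolynomial (Fin 3) K) (φ : Polynomial K) :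
    KFn K :=
  rootF (LG E) (aLG F E) φ

instance {K : Type} [Field K] (F E : MvPolynomial (Fin 3) K) (φ : Polynomial K) :
    Rp (XC F E φ) := by
  unfold XC
  infer_instance

variable {k : Type} [Field k]

theorem ev_rs' {K : Type} [Field K] [Algebra k K] (F : MvPolynomial (Fin 3) k) {R : Type}
    [CommRing R] [Algebra K R] (x y z : R) :
    @ev k _ F R _ (rsA k K R) x y z = ev (MvPolynomial.map (algebraMap k K) F) x y z :=
  (Pool.Agent.Helper49.CP.ev_rs F x y z).symm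

/-- the fibre over a point of the `ζ`-line -/
noncomputable def wildFib (F E : MvPolynomial (Fin 3) k) (φ : Polynomial k) (K : Type) [Field K]
    [Algebra k K] (τ : K) :
    Iso (fibK (dbl (LG E).line (dA (aLG F E) φ)) ⟨fun x => x.1.1.2, fun _ _ => rfl⟩ K τ)
      ((CW (Qp (MvPolynomial.map (algebraMap k K) F) (MvPolynomial.map (algebraMap k K) E)
        (-aeval τ φ) 1)).opn (CW.c _ (MvPolynomial.map (algebraMap k K) E))) where
  hom {R} _ _ x := ⟨⟨(x.1.1.1.1.1.1, x.1.1.1.1.1.2.1, x.1.1.1.1.1.2.2,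
      ev (MvPolynomial.map (algebraMap k K) E) x.1.1.1.1.1.1 x.1.1.1.1.1.2.1 x.1.1.1.1.1.2.2 *
        x.1.1.2), by
        have h1 : IsUnit (@ev k _ E R _ (rsA k K R) x.1.1.1.1.1.1 x.1.1.1.1.1.2.1
          x.1.1.1.1.1.2.2) := x.1.1.1.1.2
        have h2 : x.1.1.2 ^ 2 - (@ev k _ F R _ (rsA k K R) x.1.1.1.1.1.1
          x.1.1.1.1.1.2.1 x.1.1.1.1.1.2.2 *
          Ring.inverse (@ev k _ E R _ (rsA k K R) x.1.1.1.1.1.1 x.1.1.1.1.1.2.1
            x.1.1.1.1.1.2.2) ^ 2 - @aeval k R _ _ (rsA k K R) x.1.1.1.2 φ) = 0 := x.1.2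
        have h3 : x.1.1.1.2 = algebraMap K R τ := x.2
        rw [h3, aeval_rs, ev_rs' (k := k) F, ev_rs' (k := k) E] at h2
        rw [ev_rs' (k := k) E] at h1
        have h4 := (wild_rel h1).2 h2
        change (_ * x.1.1.2) ^ 2 - ev (Qp _ _ _ _) _ _ _ = 0
        rw [ev_Qp, map_neg, map_one]
        exact h4⟩, by
        have h1 : IsUnit (@ev k _ E R _ (rsA k K R) x.1.1.1.1.1.1 x.1.1.1.1.1.2.1
          x.1.1.1.1.1.2.2) := x.1.1.1.1.2
        rw [ev_rs' (k := k) E] at h1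
        exact h1⟩
  inv {R} _ _ y := ⟨⟨((⟨(y.1.1.1, y.1.1.2.1, y.1.1.2.2.1), by
      have h1 : IsUnit (ev (MvPolynomial.map (algebraMap k K) E) y.1.1.1 y.1.1.2.1
        y.1.1.2.2.1) := y.2
      rw [← ev_rs' (k := k) E] at h1
      exact h1⟩, algebraMap K R τ),
      y.1.1.2.2.2 * Ring.inverse (ev (MvPolynomial.map (algebraMap k K) E) y.1.1.1 y.1.1.2.1
        y.1.1.2.2.1)), by
      have h1 : IsUnit (ev (MvPolynomial.map (algebraMap k K) E) y.1.1.1 y.1.1.2.1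
        y.1.1.2.2.1) := y.2
      have h2 : y.1.1.2.2.2 ^ 2 - ev (Qp (MvPolynomial.map (algebraMap k K) F)
        (MvPolynomial.map (algebraMap k K) E) (-aeval τ φ) 1) y.1.1.1 y.1.1.2.1
        y.1.1.2.2.1 = 0 := y.1.2
      rw [ev_Qp, map_neg, map_one] at h2
      have h3 := Ring.mul_inverse_cancel _ h1
      change (y.1.1.2.2.2 * Ring.inverse (ev (MvPolynomial.map (algebraMap k K) E) y.1.1.1
        y.1.1.2.1 y.1.1.2.2.1)) ^ 2 - (@ev k _ F R _ (rsA k K R) y.1.1.1 y.1.1.2.1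
        y.1.1.2.2.1 * Ring.inverse (@ev k _ E R _ (rsA k K R) y.1.1.1 y.1.1.2.1
        y.1.1.2.2.1) ^ 2 - @aeval k R _ _ (rsA k K R) (algebraMap K R τ) φ) = 0
      rw [aeval_rs, ev_rs' (k := k) F, ev_rs' (k := k) E]
      refine (wild_rel h1).1 ?_
      set g := ev (MvPolynomial.map (algebraMap k K) E) y.1.1.1 y.1.1.2.1 y.1.1.2.2.1
      linear_combination h2 + (y.1.1.2.2.2 ^ 2 * (g * Ring.inverse g + 1)) * h3⟩, rfl⟩
  inv_hom {R} _ _ x := by
    have h1 : IsUnit (@ev k _ E R _ (rsA k K R) x.1.1.1.1.1.1 x.1.1.1.1.1.2.1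
          x.1.1.1.1.1.2.2) := x.1.1.1.1.2
    rw [ev_rs' (k := k) E] at h1
    have h3 : x.1.1.1.2 = algebraMap K R τ := x.2
    refine Subtype.ext (Subtype.ext (Prod.ext (Prod.ext rfl h3.symm) ?_))
    change ev (MvPolynomial.map (algebraMap k K) E) x.1.1.1.1.1.1 x.1.1.1.1.1.2.1
      x.1.1.1.1.1.2.2 * x.1.1.2 * Ring.inverse (ev (MvPolynomial.map (algebraMap k K) E)
      x.1.1.1.1.1.1 x.1.1.1.1.1.2.1 x.1.1.1.1.1.2.2) = x.1.1.2
    have h4 := Ring.mul_inverse_cancel _ h1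
    linear_combination x.1.1.2 * h4
  hom_inv {R} _ _ y := by
    have h1 : IsUnit (ev (MvPolynomial.map (algebraMap k K) E) y.1.1.1 y.1.1.2.1
        y.1.1.2.2.1) := y.2
    refine Subtype.ext (Subtype.ext (Prod.ext rfl (Prod.ext rfl (Prod.ext rfl ?_))))
    change ev (MvPolynomial.map (algebraMap k K) E) y.1.1.1 y.1.1.2.1 y.1.1.2.2.1 *
      (y.1.1.2.2.2 * Ring.inverse (ev (MvPolynomial.map (algebraMap k K) E) y.1.1.1 y.1.1.2.1
      y.1.1.2.2.1)) = y.1.1.2.2.2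
    have h4 := Ring.mul_inverse_cancel _ h1
    linear_combination y.1.1.2.2.2 * h4
  nat {R S} _ _ _ _ f x := by
    refine Subtype.ext (Subtype.ext (Prod.ext rfl (Prod.ext rfl (Prod.ext rfl ?_))))
    change f (ev (MvPolynomial.map (algebraMap k K) E) x.1.1.1.1.1.1 x.1.1.1.1.1.2.1
      x.1.1.1.1.1.2.2 * x.1.1.2) = ev (MvPolynomial.map (algebraMap k K) E) (f x.1.1.1.1.1.1)
      (f x.1.1.1.1.1.2.1) (f x.1.1.1.1.1.2.2) * f x.1.1.2
    rw [map_mul, ev_map]

variable {p : ℕ} {P : ∀ (A : Type) [CommRing A], Prop}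

/-- **additive covers**: the cone -/
theorem xc_wild [Finite k] (hp : p.Prime) (hP : IsogenyClass p P) [CharP k p] (hp2 : p ≠ 2)
    (F E : MvPolynomial (Fin 3) k) (hF : IsWeightedHomogeneous wt F 6)
    (hE : IsWeightedHomogeneous wt E 3) (hE0 : E ≠ 0)
    (hx : ∀ (k' : Type) [Field k'] [Algebra k k'], Module.Finite k k' → ∀ τ : Chg k',
      ¬ (NoX (MvPolynomial.aeval τ.fwd (MvPolynomial.map (algebraMap k k') F)) ∧
        NoX (MvPolynomial.aeval τ.fwd (MvPolynomial.map (algebraMap k k') E))))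
    (hy : ¬ (NoY F ∧ NoY E)) (φ : Polynomial k)
    (h1 : ∀ m ∈ φ.support, ∃ i, m = p ^ i) (h2 : φ.coeff 1 ≠ 0) :
    (XC F E φ).Mem (fun R _ _ => P R) := by
  refine add_mem hP (CharP.cast_eq_zero k p) hp2 (aLG F E) φ h1 h2 ?_
  refine fib_mem hp hP.toFormalClass k _ ⟨fun x => x.1.1.2, fun _ _ => rfl⟩ ?_
  intro K _ _ _ _ τ G hG hW
  have h2K : (2 : K) ≠ 0 := by
    intro h
    have h3 : ((2 : ℕ) : K) = 0 := by
      rw [Nat.cast_ofNat]
      exact h
    rw [CharP.cast_eq_zero_iff K p] at h3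
    have h4 := (Nat.prime_dvd_prime_iff_eq hp Nat.prime_two).1 h3
    exact hp2 h4
  have hc := Pool.Agent.Helper49.CP.conic6 hG hW F E hF hE hE0 (-aeval τ φ) 1 one_ne_zero
  refine Mem.of_iso (wildFib F E φ K τ) (mem_opn hG.toKOps _ ?_ hc)
  exact Pool.Agent.Helper79.CP.geo6_of hG
    (fun F hF h => Pool.Agent.Helper49.CP.cone6_mem h2K hG F hF h) F E hF hE hx hy _ 1
      one_ne_zero hc

end Pool.Agent.Helper71.CP
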