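import Pool.Agent.Helper71.CP.AffC
import Pool.Agent.Helper71.QP.WildAll

/-!
# Isogeny covers of the quadric cone: additive polynomials
-/

set_option autoImplicit false

namespace Pool.Agent.Helper71.CP

open Pool.Agent.Helper29.CQ Pool.Agent.Helper65.CC Pool.Agent.Helper87.CC
  Pool.Agent.Helper65.CC.KFn
open Pool.Agent.Helper71.PN
open Pool.Agent.Helper29.PF (StableClass)
open MvPolynomial (IsWeightedHomogeneous)
open Polynomial (X C aeval)

variable {k : Type} [Field k] {p : ℕ} {P : ∀ (A : Type) [CommRing A], Prop}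

/-- the exponents of a homogenised monomial -/
noncomputable def hexp (d : ℕ) (m : Fin 2 →₀ ℕ) : Fin 3 →₀ ℕ :=
  Finsupp.single 0 (m 0) + Finsupp.single 1 (m 1) + Finsupp.single 2 (d - (m 0 + 2 * m 1))

theorem exists_hom (d : ℕ) (f : MvPolynomial (Fin 2) k)
    (hf : ∀ m ∈ f.support, m 0 + 2 * m 1 ≤ d) :
    ∃ F : MvPolynomial (Fin 3) k, IsWeightedHomogeneous wt F d ∧
      ∀ (R : Type) [CommRing R] [Algebra k R] (x y : R), ev2 f x y = ev F x y 1 := by
  refine ⟨∑ m ∈ f.support, MvPolynomial.monomial (hexp d m) (MvPolynomial.coeff m f), ?_, ?_⟩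
  · refine IsWeightedHomogeneous.sum _ _ _ fun m hm => ?_
    refine MvPolynomial.isWeightedHomogeneous_monomial _ _ _ ?_
    have h1 := hf m hm
    simp only [hexp, Finsupp.weight_apply]
    rw [Finsupp.sum_fintype _ _ (fun i => by simp)]
    simp only [Fin.sum_univ_three, Matrix.cons_val_zero, Matrix.cons_val_one, Matrix.cons_val,
      smul_eq_mul, mul_one, Finsupp.add_apply]
    simp [Finsupp.single_apply]
    omega
  · intro R _ _ x y
    unfold ev2 ev
    rw [MvPolynomial.aeval_def, MvPolynomial.eval₂_eq', map_sum]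
    refine Finset.sum_congr rfl fun m _ => ?_
    rw [MvPolynomial.aeval_monomial, Finsupp.prod_fintype _ _ (fun i => pow_zero _)]
    simp only [Fin.prod_univ_two, Fin.prod_univ_three, hexp, Finsupp.add_apply]
    simp [Finsupp.single_apply]

theorem exists_hom0 (d : ℕ) (g : MvPolynomial (Fin 2) k)
    (hg : ∀ m ∈ g.support, m 0 + 2 * m 1 ≤ d) (hg0 : g ≠ 0) :
    ∃ E : MvPolynomial (Fin 3) k, IsWeightedHomogeneous wt E d ∧ E ≠ 0 ∧
      ∀ (R : Type) [CommRing R] [Algebra k R] (x y : R), ev2 g x y = ev E x y 1 := by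
  obtain ⟨E, h1, h2⟩ := exists_hom d g hg
  refine ⟨E, h1, ?_, h2⟩
  rintro rfl
  apply hg0
  have h3 := h2 (MvPolynomial (Fin 2) k) (MvPolynomial.X 0) (MvPolynomial.X 1)
  have h4 : ev2 g (MvPolynomial.X 0 : MvPolynomial (Fin 2) k) (MvPolynomial.X 1) = g := by
    have h5 : (MvPolynomial.aeval ![MvPolynomial.X 0, MvPolynomial.X 1] :
        MvPolynomial (Fin 2) k →ₐ[k] MvPolynomial (Fin 2) k) = AlgHom.id k _ := by
      apply MvPolynomial.algHom_ext
      intro i
      rw [MvPolynomial.aeval_X]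
      fin_cases i <;> rfl
    exact DFunLike.congr_fun h5 g
  rw [h4] at h3
  rw [h3]
  exact map_zero _

/-- separable additive polynomials -/
theorem wild_sep [Finite k] (hp : p.Prime) (hp2 : p ≠ 2) (hP : IsogenyClass p P) [CharP k p]
    (f g : MvPolynomial (Fin 2) k) (hf : ∀ m ∈ f.support, m 0 + 2 * m 1 ≤ 6)
    (hg : ∀ m ∈ g.support, m 0 + 2 * m 1 ≤ 3) (φ : Polynomial k)
    (h1 : ∀ m ∈ φ.support, ∃ i, m = p ^ i) (h2 : φ.coeff 1 ≠ 0) :
    (AF f g φ).Mem (fun R _ _ => P R) := by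
  have hk : (p : k) = 0 := CharP.cast_eq_zero k p
  have h2k : (2 : k) ≠ 0 := by
    intro h
    have h3 : ((2 : ℕ) : k) = 0 := by
      rw [Nat.cast_ofNat]
      exact h
    rw [CharP.cast_eq_zero_iff k p] at h3
    exact hp2 ((Nat.prime_dvd_prime_iff_eq hp Nat.prime_two).1 h3)
  have hφ : 0 < φ.natDegree := lt_of_lt_of_le one_pos (Polynomial.le_natDegree_of_ne_zero h2)
  have hG := gops_k hP.toFormalClass k hk
  by_cases hg0 : g = 0
  · refine mem_A2A3 hP.toFormalClass hk _ _ φ (Mem.of_trivial hG.toKOps fun R _ _ x => ?_)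
    have h3 : IsUnit (ev2 g x.1.1.1.1 x.1.1.1.2) := x.1.1.2
    have h4 : ev2 g x.1.1.1.1 x.1.1.1.2 = 0 := by
      unfold ev2
      have h5 : ∀ (y : Fin 2 → R), MvPolynomial.aeval y g = 0 := fun y => by
        rw [hg0, map_zero]
      exact h5 _
    rw [h4] at h3
    exact subsingleton_of_zero_eq_one (isUnit_zero_iff.1 h3)
  · obtain ⟨F, hF, hFf⟩ := exists_hom 6 f hf
    obtain ⟨E, hE, hE0, hEg⟩ := exists_hom0 3 g hg hg0
    refine aff_mem hP.toStableClass hk h2k f g F E hF hE hFf hEg φ hφ ?_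
    by_cases hy : NoY F ∧ NoY E
    · exact prod_y hP.toFormalClass hk F E hF hE φ hφ hy.1 hy.2
    · by_cases hx : ∃ (k' : Type) (_ : Field k') (_ : Algebra k k') (_ : Module.Finite k k')
          (τ : Chg k'), NoX (MvPolynomial.aeval τ.fwd (MvPolynomial.map (algebraMap k k') F)) ∧
            NoX (MvPolynomial.aeval τ.fwd (MvPolynomial.map (algebraMap k k') E))
      · obtain ⟨k', _, _, hfin, τ, h3, h4⟩ := hx
        exact prod_ext hP.toFormalClass hk F E hF hE φ hφ k' hfin τ h3 h4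
      · push Not at hx
        exact xc_wild hp hP hp2 F E hF hE hE0
          (fun k' _ _ hfin τ h => hx k' _ _ hfin τ h.1 h.2) hy φ h1 h2

theorem supp_map (σ : k →+* k) (a : MvPolynomial (Fin 2) k) (d : ℕ)
    (h : ∀ m ∈ a.support, m 0 + 2 * m 1 ≤ d) :
    ∀ m ∈ (MvPolynomial.map σ a).support, m 0 + 2 * m 1 ≤ d := fun m hm =>
  h m (MvPolynomial.support_map_subset σ a hm)

/-- **additive polynomials** -/
theorem wild_all [Finite k] (hp : p.Prime) (hp2 : p ≠ 2) (hP : IsogenyClass p P) [CharP k p]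
    (n : ℕ) : ∀ (f g : MvPolynomial (Fin 2) k), (∀ m ∈ f.support, m 0 + 2 * m 1 ≤ 6) →
      (∀ m ∈ g.support, m 0 + 2 * m 1 ≤ 3) →
      ∀ φ : Polynomial k, φ.natDegree ≤ n → φ ≠ 0 → (∀ m ∈ φ.support, ∃ i, m = p ^ i) →
        (AF f g φ).Mem (fun R _ _ => P R) := by
  have hpp : Fact p.Prime := ⟨hp⟩
  have hk : (p : k) = 0 := CharP.cast_eq_zero k p
  induction n with
  | zero =>
    intro f g hf hg φ hn h0 h1
    exfalso
    obtain ⟨i, hi⟩ := h1 0 (Polynomial.mem_support_iff.2 (by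
      have h6 : φ.leadingCoeff ≠ 0 := Polynomial.leadingCoeff_ne_zero.2 h0
      rw [Polynomial.leadingCoeff, Nat.le_zero.1 hn] at h6
      exact h6))
    exact absurd hi.symm (pow_ne_zero i hp.ne_zero)
  | succ n ih =>
    intro f g hf hg φ hn h0 h1
    by_cases h2 : φ.coeff 1 = 0
    · obtain ⟨ψ, hψ, hψ0, hψ1, hψn⟩ := Pool.Agent.Helper71.QP.exists_root hp φ h0 h1 h2
      obtain ⟨τ, hτ⟩ := Pool.Agent.Helper67.CQ.ex_root hk f
      obtain ⟨τ', hτ'⟩ := Pool.Agent.Helper67.CQ.ex_root hk g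
      rw [← hψ]
      refine insep hP.toFormalClass hp hk f g _ _ (fun R _ _ x y => ev2_root hp hk hτ R x y)
        (fun R _ _ x y => ev2_root hp hk hτ' R x y) ψ ?_
      exact ih _ _ (supp_map τ f 6 hf) (supp_map τ' g 3 hg) ψ (by omega) hψ0 hψ1
    · exact wild_sep hp hp2 hP f g hf hg φ h1 h2

/-- **Additive covers of the quadric cone branched along a cubic section and a double curve.** -/
theorem additive_cone_pencils [Finite k] (hp : p.Prime) (hp2 : p ≠ 2) (hP : IsogenyClass p P)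
    [CharP k p] (f g : MvPolynomial (Fin 2) k) (hf : ∀ m ∈ f.support, m 0 + 2 * m 1 ≤ 6)
    (hg : ∀ m ∈ g.support, m 0 + 2 * m 1 ≤ 3) (φ : Polynomial k) (h0 : φ ≠ 0)
    (h1 : ∀ m ∈ φ.support, ∃ i, m = p ^ i) : P (AdjoinRoot (gp f g φ)) := by
  obtain ⟨b, hb⟩ := rep_AF f g φ
  have hft : Algebra.FiniteType k (AdjoinRoot (gp f g φ)) :=
    Algebra.FiniteType.trans (S := MvPolynomial (Fin 2) k) inferInstance inferInstance
  exact wild_all hp hp2 hP φ.natDegree f g hf hg φ le_rfl h0 h1 _ b hft hb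

end Pool.Agent.Helper71.CP
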